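import Mathlib

set_option autoImplicit false

namespace Pool.Agent.Lib.MP_852f00_co.Boxes

open Finset
open scoped Pointwise

/-- The vertex boundary of `S` in the directed Cayley graph `G_U` of `ℤ^d`: the number of
vertices outside `S` of the form `x + u` with `x ∈ S` and `u ∈ U`. -/
def boundary {d : ℕ} (U S : Finset (Fin d → ℤ)) : ℕ := ((S + U) \ S).card

/-- The least vertex boundary of an `n`-element subset of `ℤ^d`. -/
noncomputable def minBoundary {d : ℕ} (U : Finset (Fin d → ℤ)) (n : ℕ) : ℕ :=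
  sInf {b : ℕ | ∃ S : Finset (Fin d → ℤ), S.card = n ∧ boundary U S = b}

/-- The set of the first `n` terms of the sequence `w`. -/
def initSeg {d : ℕ} (w : ℕ → (Fin d → ℤ)) (n : ℕ) : Finset (Fin d → ℤ) := (range n).image w

/-- The box `[-p, p'] × [-q, q']` in `ℤ²`. -/
noncomputable def box (p p' q q' : ℕ) : Finset (Fin 2 → ℤ) :=
  Finset.Icc ![-(p : ℤ), -(q : ℤ)] ![(p' : ℤ), (q' : ℤ)]

/-! ### Arithmetic -/

theorem aux0 (c t : ℤ) (hc : 0 ≤ c) (h : 0 ≤ t * (c + 1) - (c + 2) * t ^ 2) : t = 0 := by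
  rcases lt_trichotomy t 0 with h1 | h1 | h1
  · exfalso
    have h2 : t * (c + 1) < 0 := mul_neg_of_neg_of_pos h1 (by linarith)
    have h3 : 0 ≤ (c + 2) * t ^ 2 := by positivity
    linarith
  · exact h1
  · exfalso
    have h2 : t ≤ t ^ 2 := by nlinarith
    have h3 : (c + 2) * t ≤ (c + 2) * t ^ 2 := mul_le_mul_of_nonneg_left h2 (by linarith)
    linarith

theorem aux1 (c k X Y : ℤ) (hc : 0 ≤ c) (hX : 0 ≤ X)
    (hp : k * ((c + 2) * k + (c + 1)) ≤ X * Y)
    (hm : (c + 2) * X + Y ≤ (c + 2) * k + ((c + 2) * k + (c + 1))) : X = k := by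
  have h1 : X * Y ≤ X * ((c + 2) * k + ((c + 2) * k + (c + 1)) - (c + 2) * X) :=
    mul_le_mul_of_nonneg_left (by linarith) hX
  have h2 : X * ((c + 2) * k + ((c + 2) * k + (c + 1)) - (c + 2) * X) =
      k * ((c + 2) * k + (c + 1)) + ((X - k) * (c + 1) - (c + 2) * (X - k) ^ 2) := by ring
  have h3 := aux0 c (X - k) hc (by linarith)
  linarith

theorem aux3 (c k X Y : ℤ) (hc : 0 ≤ c) (hX : 0 ≤ X)
    (hp : (k + 1) * ((c + 2) * k + 1) ≤ X * Y)
    (hm : (c + 2) * X + Y ≤ (c + 2) * (k + 1) + ((c + 2) * k + 1)) : X = k + 1 := by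
  have h1 : X * Y ≤ X * ((c + 2) * (k + 1) + ((c + 2) * k + 1) - (c + 2) * X) :=
    mul_le_mul_of_nonneg_left (by linarith) hX
  have h2 : X * ((c + 2) * (k + 1) + ((c + 2) * k + 1) - (c + 2) * X) =
      (k + 1) * ((c + 2) * k + 1) +
        (((k + 1) - X) * (c + 1) - (c + 2) * ((k + 1) - X) ^ 2) := by ring
  have h3 := aux0 c ((k + 1) - X) hc (by linarith)
  linarith

theorem arith_one (b : ℕ) (hb : 2 ≤ b) (X Y : ℕ → ℕ) (hY : Monotone Y)
    (N : ℕ) (hprod : ∀ n, N ≤ n → n ≤ X n * Y n)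
    (hmin : ∀ x y, 1 ≤ x → 1 ≤ y → N ≤ x * y → b * X (x * y) + Y (x * y) ≤ b * x + y) :
    False := by
  obtain ⟨c, rfl⟩ : ∃ c, b = c + 2 := ⟨b - 2, by omega⟩
  obtain ⟨k, hk1, hkN⟩ : ∃ k : ℕ, 1 ≤ k ∧ N ≤ k := ⟨N + 1, by omega, by omega⟩
  have hN : ∀ x y, k ≤ x → 1 ≤ y → N ≤ x * y := by
    intro x y hx hy
    calc N ≤ x * 1 := by omega
      _ ≤ x * y := Nat.mul_le_mul_left _ hy
  have hN1 := hN k ((c + 2) * k + (c + 1)) le_rfl (by omega)
  have p1 := hprod _ hN1
  have m1 := hmin k ((c + 2) * k + (c + 1)) hk1 (by omega) hN1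
  have hN3 := hN (k + 1) ((c + 2) * k + 1) (by omega) (by omega)
  have p3 := hprod _ hN3
  have m3 := hmin (k + 1) ((c + 2) * k + 1) (by omega) (by omega) hN3
  have h13 : k * ((c + 2) * k + (c + 1)) ≤ (k + 1) * ((c + 2) * k + 1) := by
    have : (k + 1) * ((c + 2) * k + 1) = k * ((c + 2) * k + (c + 1)) + (2 * k + 1) := by ring
    omega
  have mono13 := hY h13
  have hN2 := hN k (2 * k + 2) le_rfl (by omega)
  have p2 := hprod _ hN2
  have m2 := hmin k (2 * k + 2) hk1 (by omega) hN2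
  have h12 : c = 0 → Y (k * ((c + 2) * k + (c + 1))) ≤ Y (k * (2 * k + 2)) := by
    rintro rfl
    apply hY
    exact Nat.mul_le_mul_left _ (by omega)
  have h23 : c = 0 → Y (k * (2 * k + 2)) ≤ Y ((k + 1) * ((c + 2) * k + 1)) := by
    rintro rfl
    apply hY
    have : (k + 1) * ((0 + 2) * k + 1) = k * (2 * k + 2) + (k + 1) := by ring
    omega
  generalize X (k * ((c + 2) * k + (c + 1))) = X1 at *
  generalize Y (k * ((c + 2) * k + (c + 1))) = Y1 at *
  generalize X ((k + 1) * ((c + 2) * k + 1)) = X3 at *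
  generalize Y ((k + 1) * ((c + 2) * k + 1)) = Y3 at *
  generalize X (k * (2 * k + 2)) = X2 at *
  generalize Y (k * (2 * k + 2)) = Y2 at *
  have e1 : X1 = k := by
    zify at p1 m1 ⊢
    exact aux1 c k X1 Y1 (by positivity) (by positivity) p1 m1
  have e1' : (c + 2) * k + (c + 1) ≤ Y1 := by
    rw [e1] at p1
    exact Nat.le_of_mul_le_mul_left p1 (by omega)
  have e3 : X3 = k + 1 := by
    zify at p3 m3 ⊢
    exact aux3 c k X3 Y3 (by positivity) (by positivity) p3 m3
  have e3' : Y3 ≤ (c + 2) * k + 1 := by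
    rw [e3] at m3
    omega
  have hc : c = 0 := by omega
  have h12 := h12 hc
  have h23 := h23 hc
  subst hc
  have hY2 : Y2 = 2 * k + 1 := by omega
  rw [hY2] at p2 m2
  have hX2 : X2 ≤ k := by omega
  have h4 : X2 * (2 * k + 1) ≤ k * (2 * k + 1) := Nat.mul_le_mul_right _ hX2
  have h5 : k * (2 * k + 2) = k * (2 * k + 1) + k := by ring
  omega

theorem aux_sq (a b k X Y : ℤ) (ha : 0 < a) (hb : 0 < b) (hk : 0 < k) (hX : 0 ≤ X) (hY : 0 ≤ Y)
    (hp : (a * k) * (b * k) ≤ X * Y) (hm : b * X + a * Y ≤ b * (a * k) + a * (b * k)) :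
    X = a * k ∧ Y = b * k := by
  have h2 : (b * X + a * Y) ^ 2 ≤ (2 * (a * b * k)) ^ 2 := by
    apply pow_le_pow_left₀ (by positivity)
    linarith
  have h3 : a * b * ((a * k) * (b * k)) ≤ a * b * (X * Y) :=
    mul_le_mul_of_nonneg_left hp (by positivity)
  have h1 : (b * X - a * Y) ^ 2 ≤ 0 := by
    have e1 : (b * X - a * Y) ^ 2 = (b * X + a * Y) ^ 2 - 4 * (a * b * (X * Y)) := by ring
    have e2 : (2 * (a * b * k)) ^ 2 = 4 * (a * b * ((a * k) * (b * k))) := by ring
    linarith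
  have h4 : b * X = a * Y := by
    have h5 : (b * X - a * Y) ^ 2 = 0 := le_antisymm h1 (sq_nonneg _)
    have h6 := pow_eq_zero_iff (two_ne_zero) |>.1 h5
    linarith
  have h5 : b * X ≤ b * (a * k) := by linarith
  have h6 : X ≤ a * k := le_of_mul_le_mul_left h5 hb
  have h7 : a * Y ≤ a * (b * k) := by linarith
  have h8 : Y ≤ b * k := le_of_mul_le_mul_left h7 ha
  have hak : 0 < a * k := by positivity
  have hbk : 0 < b * k := by positivity
  have h9 : X * Y ≤ X * (b * k) := mul_le_mul_of_nonneg_left h8 hX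
  have h10 : a * k ≤ X := by
    have : (a * k) * (b * k) ≤ X * (b * k) := hp.trans h9
    exact le_of_mul_le_mul_right this hbk
  have h11 : X * Y ≤ (a * k) * Y := mul_le_mul_of_nonneg_right h6 hY
  have h12 : b * k ≤ Y := by
    have : (a * k) * (b * k) ≤ (a * k) * Y := hp.trans h11
    exact le_of_mul_le_mul_left this hak
  exact ⟨le_antisymm h6 h10, le_antisymm h8 h12⟩

theorem arith_two (a b : ℕ) (ha : 2 ≤ a) (hb : 2 ≤ b) (hab : Nat.Coprime a b) (X Y : ℕ → ℕ)
    (hX : Monotone X) (hY : Monotone Y)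
    (N : ℕ) (hprod : ∀ n, N ≤ n → n ≤ X n * Y n)
    (hmin : ∀ x y, 1 ≤ x → 1 ≤ y → N ≤ x * y → b * X (x * y) + a * Y (x * y) ≤ b * x + a * y) :
    False := by
  obtain ⟨α, β, hαβ⟩ : ∃ α β : ℤ, b * α + a * β = 1 := by
    have h := Nat.isCoprime_iff_coprime.2 hab
    obtain ⟨u, v, huv⟩ := h
    exact ⟨v, u, by linarith⟩
  obtain ⟨k, hkN, hk1, hα, hβ, hαβ'⟩ : ∃ k : ℕ, N ≤ k ∧ 1 ≤ k ∧ -(k : ℤ) < α ∧ -(k : ℤ) < β ∧
      -(k : ℤ) < α * β :=
    ⟨N + 1 + α.natAbs + β.natAbs + (α * β).natAbs, by omega, by omega, by omega, by omega,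
      by omega⟩
  have ha' : (2 : ℤ) ≤ a := by exact_mod_cast ha
  have hb' : (2 : ℤ) ≤ b := by exact_mod_cast hb
  have hk' : (1 : ℤ) ≤ k := by exact_mod_cast hk1
  have hak : (k : ℤ) ≤ a * k := by nlinarith
  have hbk : (k : ℤ) ≤ b * k := by nlinarith
  obtain ⟨x2, hx2⟩ : ∃ x : ℕ, (x : ℤ) = a * k + α := ⟨(a * k + α).toNat, by
    rw [Int.toNat_of_nonneg]; linarith⟩
  obtain ⟨y2, hy2⟩ : ∃ x : ℕ, (x : ℤ) = b * k + β := ⟨(b * k + β).toNat, by
    rw [Int.toNat_of_nonneg]; linarith⟩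
  have hN1 : N ≤ (a * k) * (b * k) := by
    have h1 : k ≤ a * k := Nat.le_mul_of_pos_left _ (by omega)
    have : k * 1 ≤ (a * k) * (b * k) :=
      Nat.mul_le_mul h1 (Nat.mul_pos (by omega) (by omega))
    omega
  have hprod2 : (x2 : ℤ) * y2 = (a * k) * (b * k) + (k + α * β) := by
    rw [hx2, hy2]
    linear_combination (k : ℤ) * hαβ
  have hlt : (a * k) * (b * k) < x2 * y2 := by
    zify
    rw [hprod2]
    linarith
  have hN2 : N ≤ x2 * y2 := hN1.trans hlt.le
  have p1 := hprod _ hN1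
  have m1 := hmin (a * k) (b * k) (Nat.mul_pos (by omega) (by omega))
    (Nat.mul_pos (by omega) (by omega)) hN1
  have hx21 : 1 ≤ x2 := by
    zify; rw [hx2]; linarith
  have hy21 : 1 ≤ y2 := by
    zify; rw [hy2]; linarith
  have p2 := hprod _ hN2
  have m2 := hmin x2 y2 hx21 hy21 hN2
  have monoX := hX hlt.le
  have monoY := hY hlt.le
  generalize X ((a * k) * (b * k)) = X1 at *
  generalize Y ((a * k) * (b * k)) = Y1 at *
  generalize X (x2 * y2) = X2 at *
  generalize Y (x2 * y2) = Y2 at *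
  have e1 : X1 = a * k ∧ Y1 = b * k := by
    zify at p1 m1 ⊢
    exact aux_sq a b k X1 Y1 (by linarith) (by linarith) (by linarith) (by positivity)
      (by positivity) p1 m1
  obtain ⟨eX, eY⟩ := e1
  rw [eX] at monoX
  rw [eY] at monoY
  have hval : (b : ℤ) * x2 + a * y2 = b * (a * k) + a * (b * k) + 1 := by
    rw [hx2, hy2]
    linear_combination hαβ
  zify at m2
  rw [hval] at m2
  rcases eq_or_lt_of_le monoX with hx | hx
  · rcases eq_or_lt_of_le monoY with hy | hy
    · rw [← hx, ← hy] at p2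
      omega
    · have h1 : b * k + 1 ≤ Y2 := hy
      zify at h1
      have hx' : (X2 : ℤ) = a * k := by exact_mod_cast hx.symm
      rw [hx'] at m2
      have h2 : (a : ℤ) * (b * k + 1) ≤ a * Y2 := mul_le_mul_of_nonneg_left h1 (by linarith)
      linarith
  · have h1 : a * k + 1 ≤ X2 := hx
    zify at h1 monoY
    have h2 : (b : ℤ) * (a * k + 1) ≤ b * X2 := mul_le_mul_of_nonneg_left h1 (by linarith)
    have h3 : (a : ℤ) * (b * k) ≤ a * Y2 := mul_le_mul_of_nonneg_left monoY (by linarith)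
    linarith

/-! ### Geometry -/

theorem fiber_bound {G G' : Type} [AddCommGroup G] [AddCommGroup G'] [DecidableEq G]
    [DecidableEq G'] [IsAddTorsionFree G] (f : G →+ G') (S V : Finset G) (hV : V.Nonempty)
    (hf : ∀ v ∈ V, f v = 0) : S.card + (V.card - 1) * (S.image f).card ≤ (S + V).card := by
  have h1 : (S + V).card = ∑ c ∈ S.image f, ((S + V).filter (fun t => f t = c)).card := by
    apply card_eq_sum_card_fiberwise
    intro t ht
    rw [mem_coe, mem_add] at ht
    obtain ⟨s, hs, v, hv, rfl⟩ := ht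
    rw [mem_coe, mem_image]
    exact ⟨s, hs, by rw [map_add, hf v hv, add_zero]⟩
  have h2 : S.card = ∑ c ∈ S.image f, (S.filter (fun t => f t = c)).card := by
    apply card_eq_sum_card_fiberwise
    intro t ht
    exact mem_coe.2 (mem_image_of_mem f ht)
  have h3 : (V.card - 1) * (S.image f).card = ∑ c ∈ S.image f, (V.card - 1) := by
    rw [sum_const, smul_eq_mul, mul_comm]
  rw [h1, h3]
  conv_lhs => rw [h2]
  rw [← sum_add_distrib]
  apply sum_le_sum
  intro c hc
  rw [mem_image] at hc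
  obtain ⟨s, hs, hsc⟩ := hc
  have hne : (S.filter (fun t => f t = c)).Nonempty := ⟨s, mem_filter.2 ⟨hs, hsc⟩⟩
  have hcd := cauchy_davenport_of_isAddTorsionFree hne hV
  have hsub : S.filter (fun t => f t = c) + V ⊆ (S + V).filter (fun t => f t = c) := by
    intro t ht
    rw [mem_add] at ht
    obtain ⟨u, hu, v, hv, rfl⟩ := ht
    rw [mem_filter] at hu ⊢
    exact ⟨add_mem_add hu.1 hv, by rw [map_add, hf v hv, add_zero, hu.2]⟩
  have h4 := card_le_card hsub
  have h5 := card_pos.2 hV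
  omega

/-- evaluation at a coordinate -/
def ev (i : Fin 2) : (Fin 2 → ℤ) →+ ℤ := Pi.evalAddMonoidHom (fun _ => ℤ) i

theorem mem_box {p p' q q' : ℕ} {v : Fin 2 → ℤ} :
    v ∈ box p p' q q' ↔ (-(p : ℤ) ≤ v 0 ∧ v 0 ≤ p') ∧ (-(q : ℤ) ≤ v 1 ∧ v 1 ≤ q') := by
  unfold box
  rw [mem_Icc, Pi.le_def, Pi.le_def]
  simp only [Fin.forall_fin_two, Matrix.cons_val_zero, Matrix.cons_val_one]
  tauto

theorem lower_bound (p p' q q' : ℕ) (S : Finset (Fin 2 → ℤ)) (hS : S.Nonempty) :
    (q + q') * (S.image (ev 0)).card + (p + p') * (S.image (ev 1)).card + (p + p') * (q + q')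
      ≤ boundary (box p p' q q' \ {0}) S := by
  -- vertical and horizontal segments
  let V : Finset (Fin 2 → ℤ) := (Icc (-(q : ℤ)) q').image (fun t => ![0, t])
  let H : Finset (Fin 2 → ℤ) := (Icc (-(p : ℤ)) p').image (fun t => ![t, 0])
  have hVc : V.card = q + q' + 1 := by
    rw [card_image_of_injective, Int.card_Icc]
    · omega
    · intro s t h
      have := congrFun h 1
      simpa using this
  have hHc : H.card = p + p' + 1 := by
    rw [card_image_of_injective, Int.card_Icc]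
    · omega
    · intro s t h
      have := congrFun h 0
      simpa using this
  have hVne : V.Nonempty := card_pos.1 (by omega)
  have hHne : H.Nonempty := card_pos.1 (by omega)
  have hV0 : ∀ v ∈ V, ev 0 v = 0 := by
    intro v hv
    obtain ⟨t, -, rfl⟩ := mem_image.1 hv
    rfl
  have hH1 : ∀ v ∈ H, ev 1 v = 0 := by
    intro v hv
    obtain ⟨t, -, rfl⟩ := mem_image.1 hv
    rfl
  have b1 := fiber_bound (ev 0) S V hVne hV0
  have b2 := fiber_bound (ev 1) (S + V) H hHne hH1
  have hVim : V.image (ev 1) = Icc (-(q : ℤ)) q' := by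
    ext t
    constructor
    · intro ht
      obtain ⟨v, hv, rfl⟩ := mem_image.1 ht
      obtain ⟨s, hs, rfl⟩ := mem_image.1 hv
      exact hs
    · intro ht
      exact mem_image.2 ⟨![0, t], mem_image.2 ⟨t, ht, rfl⟩, rfl⟩
  have b3 : (S.image (ev 1)).card + (q + q') ≤ ((S + V).image (ev 1)).card := by
    rw [image_add (ev 1), hVim]
    have := cauchy_davenport_of_isAddTorsionFree (hS.image (ev 1))
      (t := Icc (-(q : ℤ)) q') (by rw [nonempty_Icc]; omega)
    have hc : (Icc (-(q : ℤ)) q').card = q + q' + 1 := by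
      rw [Int.card_Icc]; omega
    rw [hc] at this
    omega
  have hsub : (S + V + H) \ S ⊆ (S + (box p p' q q' \ {0})) \ S := by
    intro t ht
    rw [mem_sdiff] at ht ⊢
    refine ⟨?_, ht.2⟩
    obtain ⟨u, hu, h, hh, rfl⟩ := mem_add.1 ht.1
    obtain ⟨s, hs, v, hv, rfl⟩ := mem_add.1 hu
    rw [add_assoc]
    apply add_mem_add hs
    rw [mem_sdiff, mem_singleton, mem_box]
    obtain ⟨x, hx, rfl⟩ := mem_image.1 hh
    obtain ⟨y, hy, rfl⟩ := mem_image.1 hv
    rw [mem_Icc] at hx hy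
    refine ⟨by simpa using ⟨hx, hy⟩, ?_⟩
    intro h0
    apply ht.2
    rw [add_assoc, h0, add_zero]
    exact hs
  have hSsub : S ⊆ S + V + H := by
    intro s hs
    have h0 : s = s + ![0, 0] + ![0, 0] := by
      have hz : (![0, 0] : Fin 2 → ℤ) = 0 := by
        ext i; fin_cases i <;> rfl
      rw [hz, add_zero, add_zero]
    rw [h0]
    apply add_mem_add
    · apply add_mem_add hs
      exact mem_image.2 ⟨0, by rw [mem_Icc]; omega, rfl⟩
    · exact mem_image.2 ⟨0, by rw [mem_Icc]; omega, rfl⟩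
  have b4 := card_le_card hsub
  rw [card_sdiff_of_subset hSsub] at b4
  unfold boundary
  refine le_trans ?_ b4
  rw [hVc] at b1
  rw [hHc] at b2
  simp only [Nat.add_sub_cancel] at b1 b2
  have b5 : (p + p') * ((S.image (ev 1)).card + (q + q')) ≤
      (p + p') * ((S + V).image (ev 1)).card := Nat.mul_le_mul_left _ b3
  rw [mul_add] at b5
  omega

theorem upper_bound (p p' q q' x y : ℕ) (hx : 1 ≤ x) (hy : 1 ≤ y) :
    ∃ R : Finset (Fin 2 → ℤ), R.card = x * y ∧
      boundary (box p p' q q' \ {0}) R ≤ (q + q') * x + (p + p') * y + (p + p') * (q + q') := by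
  refine ⟨Icc ![0, 0] ![(x : ℤ) - 1, (y : ℤ) - 1], ?_, ?_⟩
  · rw [Pi.card_Icc, Fin.prod_univ_two]
    simp
  · have hsub : Icc ![0, 0] ![(x : ℤ) - 1, (y : ℤ) - 1] + (box p p' q q' \ {0}) ⊆
        Icc ![-(p : ℤ), -(q : ℤ)] ![(x : ℤ) - 1 + p', (y : ℤ) - 1 + q'] := by
      intro t ht
      obtain ⟨u, hu, v, hv, rfl⟩ := mem_add.1 ht
      rw [mem_sdiff, mem_box] at hv
      rw [mem_Icc, Pi.le_def, Pi.le_def] at hu ⊢
      simp only [Fin.forall_fin_two, Matrix.cons_val_zero, Matrix.cons_val_one,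
        Pi.add_apply] at hu ⊢
      omega
    have hRsub : Icc ![0, 0] ![(x : ℤ) - 1, (y : ℤ) - 1] ⊆
        Icc ![-(p : ℤ), -(q : ℤ)] ![(x : ℤ) - 1 + p', (y : ℤ) - 1 + q'] := by
      intro t ht
      rw [mem_Icc, Pi.le_def, Pi.le_def] at ht ⊢
      simp only [Fin.forall_fin_two, Matrix.cons_val_zero, Matrix.cons_val_one] at ht ⊢
      omega
    unfold boundary
    refine (card_le_card (sdiff_subset_sdiff hsub le_rfl)).trans ?_
    rw [card_sdiff_of_subset hRsub, Pi.card_Icc, Pi.card_Icc, Fin.prod_univ_two,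
      Fin.prod_univ_two]
    simp only [Matrix.cons_val_zero, Matrix.cons_val_one, Int.card_Icc]
    have e1 : ((x : ℤ) - 1 + p' + 1 - -(p : ℤ)).toNat = x + (p + p') := by omega
    have e2 : ((y : ℤ) - 1 + q' + 1 - -(q : ℤ)).toNat = y + (q + q') := by omega
    have e3 : ((x : ℤ) - 1 + 1 - 0).toNat = x := by omega
    have e4 : ((y : ℤ) - 1 + 1 - 0).toNat = y := by omega
    rw [e1, e2, e3, e4]
    apply Nat.sub_le_of_le_add
    apply le_of_eq
    ring

/-- The set `U = ([-p, p'] × [-q, q']) ∖ {0}` generates `ℤ²`. -/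
theorem generates (p p' q q' : ℕ) (h1 : 1 ≤ p + p') (h2 : 1 ≤ q + q') :
    AddSubgroup.closure ((box p p' q q' \ {0} : Finset (Fin 2 → ℤ)) : Set (Fin 2 → ℤ)) = ⊤ := by
  have key : ∀ v : Fin 2 → ℤ, v ∈ box p p' q q' → v ∈ AddSubgroup.closure
      ((box p p' q q' \ {0} : Finset (Fin 2 → ℤ)) : Set (Fin 2 → ℤ)) := by
    intro v hv
    by_cases h0 : v = 0
    · rw [h0]; exact zero_mem _
    · apply AddSubgroup.subset_closure
      rw [mem_coe, mem_sdiff, mem_singleton]
      exact ⟨hv, h0⟩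
  have e1 : (![1, 0] : Fin 2 → ℤ) ∈ AddSubgroup.closure
      ((box p p' q q' \ {0} : Finset (Fin 2 → ℤ)) : Set (Fin 2 → ℤ)) := by
    rcases Nat.eq_zero_or_pos p' with h | h
    · have h3 : (![-1, 0] : Fin 2 → ℤ) ∈ box p p' q q' := by
        rw [mem_box]
        simp only [Matrix.cons_val_zero, Matrix.cons_val_one]
        omega
      have h4 := neg_mem (key _ h3)
      convert h4 using 1
      ext i; fin_cases i <;> simp
    · apply key
      rw [mem_box]
      simp only [Matrix.cons_val_zero, Matrix.cons_val_one]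
      omega
  have e2 : (![0, 1] : Fin 2 → ℤ) ∈ AddSubgroup.closure
      ((box p p' q q' \ {0} : Finset (Fin 2 → ℤ)) : Set (Fin 2 → ℤ)) := by
    rcases Nat.eq_zero_or_pos q' with h | h
    · have h3 : (![0, -1] : Fin 2 → ℤ) ∈ box p p' q q' := by
        rw [mem_box]
        simp only [Matrix.cons_val_zero, Matrix.cons_val_one]
        omega
      have h4 := neg_mem (key _ h3)
      convert h4 using 1
      ext i; fin_cases i <;> simp
    · apply key
      rw [mem_box]
      simp only [Matrix.cons_val_zero, Matrix.cons_val_one]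
      omega
  rw [eq_top_iff]
  intro v _
  have hv : v = v 0 • ![1, 0] + v 1 • ![0, 1] := by
    ext i; fin_cases i <;> simp
  rw [hv]
  exact add_mem (zsmul_mem e1 _) (zsmul_mem e2 _)

/-- **Result.** Let `U = ([-p, p'] × [-q, q']) ∖ {0} ⊆ ℤ²` where the two side lengths `p + p'`
and `q + q'` are positive and different. Then `U` generates `ℤ²` and for every sequence `w` of
distinct points of `ℤ²` (in particular for every ordering of `ℤ²`) infinitely many of the initial
segments `{w_1, …, w_n}` have a vertex boundary larger than the minimum over all `n`-element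
sets. -/
theorem result (p p' q q' : ℕ) (h1 : 1 ≤ p + p') (h2 : 1 ≤ q + q') (hne : p + p' ≠ q + q') :
    AddSubgroup.closure ((box p p' q q' \ {0} : Finset (Fin 2 → ℤ)) : Set (Fin 2 → ℤ)) = ⊤ ∧
    ∀ w : ℕ → (Fin 2 → ℤ), Function.Injective w → ∀ N : ℕ, ∃ n : ℕ, N ≤ n ∧ 1 ≤ n ∧
      minBoundary (box p p' q q' \ {0}) n < boundary (box p p' q q' \ {0}) (initSeg w n) := by
  refine ⟨generates p p' q q' h1 h2, fun w hw N => ?_⟩
  by_contra hcon
  push Not at hcon
  have hcard : ∀ n, (initSeg w n).card = n := by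
    intro n
    unfold initSeg
    rw [card_image_of_injective _ hw, card_range]
  have hmono : Monotone (initSeg w) := by
    intro m n hmn
    unfold initSeg
    exact image_subset_image (range_subset_range.2 hmn)
  let X : ℕ → ℕ := fun n => ((initSeg w n).image (ev 0)).card
  let Y : ℕ → ℕ := fun n => ((initSeg w n).image (ev 1)).card
  have hX : Monotone X := fun m n hmn => card_le_card (image_subset_image (hmono hmn))
  have hY : Monotone Y := fun m n hmn => card_le_card (image_subset_image (hmono hmn))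
  have hprod : ∀ n, n ≤ X n * Y n := by
    intro n
    conv_lhs => rw [← hcard n]
    rw [← card_product]
    apply card_le_card_of_injOn (fun v => (ev 0 v, ev 1 v))
    · intro v hv
      rw [mem_coe, mem_product]
      exact ⟨mem_image_of_mem _ hv, mem_image_of_mem _ hv⟩
    · intro u _ v _ h
      rw [Prod.mk.injEq] at h
      ext i
      fin_cases i
      · exact h.1
      · exact h.2
  have hmin : ∀ x y, 1 ≤ x → 1 ≤ y → N ≤ x * y →
      (q + q') * X (x * y) + (p + p') * Y (x * y) ≤ (q + q') * x + (p + p') * y := by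
    intro x y hx hy hN
    have hpos : 1 ≤ x * y := Nat.mul_pos hx hy
    have a1 := hcon (x * y) hN hpos
    obtain ⟨R, hR1, hR2⟩ := upper_bound p p' q q' x y hx hy
    have a2 : minBoundary (box p p' q q' \ {0}) (x * y) ≤
        boundary (box p p' q q' \ {0}) R := Nat.sInf_le ⟨R, hR1, rfl⟩
    have hne' : (initSeg w (x * y)).Nonempty := card_pos.1 (by rw [hcard]; exact hpos)
    have a3 := lower_bound p p' q q' (initSeg w (x * y)) hne'
    change (q + q') * X (x * y) + (p + p') * Y (x * y) + _ ≤ _ at a3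
    omega
  generalize p + p' = a at *
  generalize q + q' = b at *
  have hg : 0 < Nat.gcd a b := Nat.gcd_pos_of_pos_left _ h1
  obtain ⟨a', ha'⟩ := Nat.gcd_dvd_left a b
  obtain ⟨b', hb'⟩ := Nat.gcd_dvd_right a b
  have hcop : Nat.Coprime a' b' := by
    have := Nat.coprime_div_gcd_div_gcd hg
    rwa [Nat.div_eq_of_eq_mul_right hg ha', Nat.div_eq_of_eq_mul_right hg hb'] at this
  set g := Nat.gcd a b with hgdef
  have ha1 : 1 ≤ a' := by
    rcases Nat.eq_zero_or_pos a' with h | h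
    · rw [h, mul_zero] at ha'; omega
    · exact h
  have hb1 : 1 ≤ b' := by
    rcases Nat.eq_zero_or_pos b' with h | h
    · rw [h, mul_zero] at hb'; omega
    · exact h
  have hmin' : ∀ x y, 1 ≤ x → 1 ≤ y → N ≤ x * y →
      b' * X (x * y) + a' * Y (x * y) ≤ b' * x + a' * y := by
    intro x y hx hy hN
    have h := hmin x y hx hy hN
    rw [ha', hb'] at h
    apply Nat.le_of_mul_le_mul_left _ hg
    calc g * (b' * X (x * y) + a' * Y (x * y)) = g * b' * X (x * y) + g * a' * Y (x * y) := by ring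
      _ ≤ g * b' * x + g * a' * y := h
      _ = g * (b' * x + a' * y) := by ring
  have hne' : a' ≠ b' := by
    rintro rfl
    exact hne (ha'.trans hb'.symm)
  rcases eq_or_lt_of_le ha1 with ha2 | ha2
  · subst ha2
    exact arith_one b' (by omega) X Y hY N (fun n _ => hprod n) (by simpa using hmin')
  · rcases eq_or_lt_of_le hb1 with hb2 | hb2
    · subst hb2
      refine arith_one a' (by omega) Y X hX N (fun n _ => by rw [mul_comm]; exact hprod n) ?_
      intro x y hx hy hN
      have := hmin' y x hy hx (by rwa [mul_comm])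
      rw [mul_comm y x] at this
      omega
    · exact arith_two a' b' ha2 hb2 hcop X Y hX hY N (fun n _ => hprod n) hmin'

end Pool.Agent.Lib.MP_852f00_co.Boxes
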